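import Pool.Agent.H25.TRI.Targets

/-! Row C_MOS of the board reg_modules: mollifications are smooth with compact support. -/

namespace Pool.Agent.H29.TRI

open MeasureTheory Metric Set Filter Topology Pool.Agent.H87.SN Pool.Agent.H25.TRI
open scoped ContDiff RealInnerProductSpace ENNReal Convolution

theorem pf_MOS : T_MOS := by
  intro n m f hm hf hfc
  have e : (fun x => ∫ z, m z * f (x - z)) =
      (m ⋆[ContinuousLinearMap.mul ℝ ℝ, (volume : Measure (E n))] f) := by
    funext x
    rw [convolution_def]
    rfl
  rw [e]
  refine ⟨?_, ?_⟩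
  · exact hm.2.contDiff_convolution_left _ hm.1 hf.locallyIntegrable
  · exact hm.2.convolution _ hfc

end Pool.Agent.H29.TRI
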